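import Pool.Agent.U469.DE.S

/-! Project DE (helper469), job Bounds: JobHor, JobWal, JobCont. -/

set_option autoImplicit false

open MeasureTheory Filter Topology Complex
open scoped ComplexConjugate InnerProductSpace

namespace Pool.Agent.U913.DE

open Pool.Agent.U469.DE

/-- one-dimensional trace inequality -/
lemma one_d (f : ℝ → ℂ) (f' : ℝ → ℂ) (hf : ContDiff ℝ 1 f) (hc : HasCompactSupport f)
    (hd : ∀ y, HasDerivAt f (f' y) y) (c : ℝ) : ‖f c‖ ^ 2 ≤ ∫ y, ‖f y‖ * ‖f' y‖ := by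
  have hf'c : Continuous f' := by
    have : f' = deriv f := funext fun y => (hd y).deriv.symm
    rw [this]; exact hf.continuous_deriv le_rfl
  set g : ℝ → ℝ := fun y => ‖f y‖ ^ 2 with hg
  have hgd : ∀ y, HasDerivAt g (2 * ⟪f y, f' y⟫_ℝ) y := fun y => (hd y).norm_sq
  have hgC : ContDiff ℝ 1 g := hf.norm_sq ℝ
  have hgc : HasCompactSupport g := hc.comp_left (g := fun z : ℂ => ‖z‖ ^ 2) (by simp)
  have h1 := HasCompactSupport.integral_Iic_deriv_eq hgC hgc c
  have h2 := HasCompactSupport.integral_Ioi_deriv_eq hgC hgc c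
  have hdc : Continuous (deriv g) := hgC.continuous_deriv le_rfl
  have hdi : Integrable (deriv g) := hdc.integrable_of_hasCompactSupport hgc.deriv
  have hdb : ∀ y, |deriv g y| ≤ 2 * (‖f y‖ * ‖f' y‖) := by
    intro y
    rw [(hgd y).deriv, abs_mul, abs_two]
    have := abs_real_inner_le_norm (f y) (f' y)
    linarith
  have h3 : 2 * g c ≤ ∫ y, |deriv g y| := by
    have e : 2 * g c = (∫ y in Set.Iic c, deriv g y) + -∫ y in Set.Ioi c, deriv g y := by
      rw [h1, h2]; ring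
    rw [e, ← integral_add_compl (measurableSet_Iic (a := c)) hdi.abs, Set.compl_Iic]
    have a1 : (∫ y in Set.Iic c, deriv g y) ≤ ∫ y in Set.Iic c, |deriv g y| :=
      integral_mono hdi.integrableOn hdi.abs.integrableOn fun y => le_abs_self _
    have a2 : -(∫ y in Set.Ioi c, deriv g y) ≤ ∫ y in Set.Ioi c, |deriv g y| := by
      rw [← integral_neg]
      exact integral_mono hdi.neg.integrableOn hdi.abs.integrableOn fun y => neg_le_abs _
    linarith
  have hi : Integrable (fun y => ‖f y‖ * ‖f' y‖) := by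
    apply Continuous.integrable_of_hasCompactSupport (hf.continuous.norm.mul hf'c.norm)
    exact HasCompactSupport.mul_right (hc.norm)
  have h4 : (∫ y, |deriv g y|) ≤ ∫ y, 2 * (‖f y‖ * ‖f' y‖) :=
    integral_mono hdi.abs (hi.const_mul 2) hdb
  rw [integral_const_mul] at h4
  change g c ≤ _
  linarith

section core

variable {φ : ℝ × ℝ → ℂ} (hφ : φ ∈ Core)
include hφ

lemma cont : Continuous φ := hφ.1.continuous

lemma dX_cont : Continuous (dX φ) := (hφ.1.continuous_fderiv one_ne_zero).clm_apply continuous_const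

lemma dY_cont : Continuous (dY φ) := (hφ.1.continuous_fderiv one_ne_zero).clm_apply continuous_const

lemma dX_supp : HasCompactSupport (dX φ) :=
  (HasCompactSupport.fderiv ℝ hφ.2).comp_left (g := fun L : ℝ × ℝ →L[ℝ] ℂ => L (1, 0)) (by simp)

lemma dY_supp : HasCompactSupport (dY φ) :=
  (HasCompactSupport.fderiv ℝ hφ.2).comp_left (g := fun L : ℝ × ℝ →L[ℝ] ℂ => L (0, 1)) (by simp)

lemma sliceY (x : ℝ) : ContDiff ℝ 1 (fun y => φ (x, y)) ∧ HasCompactSupport (fun y => φ (x, y)) ∧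
    ∀ y, HasDerivAt (fun y => φ (x, y)) (dY φ (x, y)) y := by
  refine ⟨hφ.1.comp (contDiff_const.prodMk contDiff_id), ?_, fun y => ?_⟩
  · refine HasCompactSupport.intro (hφ.2.isCompact.image continuous_snd) fun y hy => ?_
    by_contra h
    exact hy ⟨(x, y), subset_tsupport _ h, rfl⟩
  · have h1 : HasFDerivAt φ (fderiv ℝ φ (x, y)) (x, y) :=
      (hφ.1.differentiable one_ne_zero _).hasFDerivAt
    have h2 : HasDerivAt (fun y : ℝ => (x, y)) ((0 : ℝ), (1 : ℝ)) y :=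
      (hasDerivAt_const y x).prodMk (hasDerivAt_id y)
    exact h1.comp_hasDerivAt y h2

lemma sliceX (y : ℝ) : ContDiff ℝ 1 (fun x => φ (x, y)) ∧ HasCompactSupport (fun x => φ (x, y)) ∧
    ∀ x, HasDerivAt (fun x => φ (x, y)) (dX φ (x, y)) x := by
  refine ⟨hφ.1.comp (contDiff_id.prodMk contDiff_const), ?_, fun x => ?_⟩
  · refine HasCompactSupport.intro (hφ.2.isCompact.image continuous_fst) fun x hx => ?_
    by_contra h
    exact hx ⟨(x, y), subset_tsupport _ h, rfl⟩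
  · have h1 : HasFDerivAt φ (fderiv ℝ φ (x, y)) (x, y) :=
      (hφ.1.differentiable one_ne_zero _).hasFDerivAt
    have h2 : HasDerivAt (fun x : ℝ => (x, y)) ((1 : ℝ), (0 : ℝ)) x :=
      (hasDerivAt_id x).prodMk (hasDerivAt_const x y)
    exact h1.comp_hasDerivAt x h2

omit hφ in
lemma int_sq_aux {ψ : ℝ × ℝ → ℂ} (h1 : Continuous ψ) (h2 : HasCompactSupport ψ) :
    Integrable (fun p : ℝ × ℝ => ‖ψ p‖ ^ 2) := by
  have h3 : Continuous (fun p : ℝ × ℝ => ‖ψ p‖ ^ 2) := h1.norm.pow 2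
  have h4 : HasCompactSupport (fun p : ℝ × ℝ => ‖ψ p‖ ^ 2) := by
    refine HasCompactSupport.intro h2.isCompact fun p hp => ?_
    rw [image_eq_zero_of_notMem_tsupport hp, norm_zero, zero_pow two_ne_zero]
  exact h3.integrable_of_hasCompactSupport h4

omit hφ in
lemma int_mul_aux {ψ χ : ℝ × ℝ → ℂ} (h1 : Continuous ψ) (h2 : HasCompactSupport ψ)
    (h5 : Continuous χ) : Integrable (fun p : ℝ × ℝ => ‖ψ p‖ * ‖χ p‖) := by
  have h3 : Continuous (fun p : ℝ × ℝ => ‖ψ p‖ * ‖χ p‖) := h1.norm.mul h5.norm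
  have h4 : HasCompactSupport (fun p : ℝ × ℝ => ‖ψ p‖ * ‖χ p‖) := by
    refine HasCompactSupport.intro h2.isCompact fun p hp => ?_
    rw [image_eq_zero_of_notMem_tsupport hp, norm_zero, zero_mul]
  exact h3.integrable_of_hasCompactSupport h4

lemma int_sq : Integrable (fun p : ℝ × ℝ => ‖φ p‖ ^ 2) := int_sq_aux (cont hφ) hφ.2

lemma int_X : Integrable (fun p : ℝ × ℝ => ‖dX φ p‖ ^ 2) := int_sq_aux (dX_cont hφ) (dX_supp hφ)

lemma int_Y : Integrable (fun p : ℝ × ℝ => ‖dY φ p‖ ^ 2) := int_sq_aux (dY_cont hφ) (dY_supp hφ)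

lemma int_pX : Integrable (fun p : ℝ × ℝ => ‖φ p‖ * ‖dX φ p‖) :=
  int_mul_aux (cont hφ) hφ.2 (dX_cont hφ)

lemma int_pY : Integrable (fun p : ℝ × ℝ => ‖φ p‖ * ‖dY φ p‖) :=
  int_mul_aux (cont hφ) hφ.2 (dY_cont hφ)

omit hφ in
lemma yng (a b η : ℝ) (hη : 0 < η) : a * b ≤ (η * b ^ 2 + a ^ 2 / η) / 2 := by
  have h1 : 0 ≤ (η * b - a) ^ 2 / η := by positivity
  have h2 : (η * b - a) ^ 2 / η = η * b ^ 2 + a ^ 2 / η - 2 * (a * b) := by
    field_simp
    ring
  linarith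

omit hφ in
lemma nrm_nonneg : 0 ≤ nrm φ := integral_nonneg fun _ => by positivity

omit hφ in
lemma gX_nonneg : 0 ≤ gX φ := integral_nonneg fun _ => by positivity

omit hφ in
lemma gY_nonneg : 0 ≤ gY φ := integral_nonneg fun _ => by positivity

lemma mean_Y (η : ℝ) (hη : 0 < η) :
    (∫ p : ℝ × ℝ, ‖φ p‖ * ‖dY φ p‖) ≤ (η * gY φ + nrm φ / η) / 2 := by
  have h1 : (∫ p : ℝ × ℝ, ‖φ p‖ * ‖dY φ p‖) ≤
      ∫ p : ℝ × ℝ, (η * ‖dY φ p‖ ^ 2 + ‖φ p‖ ^ 2 / η) / 2 :=
    integral_mono (int_pY hφ) ((((int_Y hφ).const_mul η).add ((int_sq hφ).div_const η)).div_const 2)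
      fun p => yng _ _ _ hη
  rw [integral_div, integral_add ((int_Y hφ).const_mul η) ((int_sq hφ).div_const η),
    integral_const_mul, integral_div] at h1
  exact h1

lemma mean_X (η : ℝ) (hη : 0 < η) :
    (∫ p : ℝ × ℝ, ‖φ p‖ * ‖dX φ p‖) ≤ (η * gX φ + nrm φ / η) / 2 := by
  have h1 : (∫ p : ℝ × ℝ, ‖φ p‖ * ‖dX φ p‖) ≤
      ∫ p : ℝ × ℝ, (η * ‖dX φ p‖ ^ 2 + ‖φ p‖ ^ 2 / η) / 2 :=
    integral_mono (int_pX hφ) ((((int_X hφ).const_mul η).add ((int_sq hφ).div_const η)).div_const 2)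
      fun p => yng _ _ _ hη
  rw [integral_div, integral_add ((int_X hφ).const_mul η) ((int_sq hφ).div_const η),
    integral_const_mul, integral_div] at h1
  exact h1

lemma trY (x c : ℝ) : ‖φ (x, c)‖ ^ 2 ≤ ∫ y, ‖φ (x, y)‖ * ‖dY φ (x, y)‖ := by
  obtain ⟨h1, h2, h3⟩ := sliceY hφ x
  exact one_d _ _ h1 h2 h3 c

lemma trX (c y : ℝ) : ‖φ (c, y)‖ ^ 2 ≤ ∫ x, ‖φ (x, y)‖ * ‖dX φ (x, y)‖ := by
  obtain ⟨h1, h2, h3⟩ := sliceX hφ y
  exact one_d _ _ h1 h2 h3 c

/-- the integrals over the columns -/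
lemma colY : Integrable (fun x : ℝ => ∫ y, ‖φ (x, y)‖ * ‖dY φ (x, y)‖) ∧
    (∫ x : ℝ, ∫ y, ‖φ (x, y)‖ * ‖dY φ (x, y)‖) = ∫ p : ℝ × ℝ, ‖φ p‖ * ‖dY φ p‖ := by
  have h1 := int_pY hφ
  rw [Measure.volume_eq_prod] at h1
  refine ⟨h1.integral_prod_left, ?_⟩
  rw [Measure.volume_eq_prod, integral_prod _ h1]

/-- the integrals over the rows -/
lemma rowX : Integrable (fun y : ℝ => ∫ x, ‖φ (x, y)‖ * ‖dX φ (x, y)‖) ∧
    (∫ y : ℝ, ∫ x, ‖φ (x, y)‖ * ‖dX φ (x, y)‖) = ∫ p : ℝ × ℝ, ‖φ p‖ * ‖dX φ p‖ := by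
  have h1 := int_pX hφ
  rw [Measure.volume_eq_prod] at h1
  refine ⟨h1.integral_prod_right, ?_⟩
  rw [Measure.volume_eq_prod, integral_prod_symm _ h1]

end core

theorem jobHor : JobHor := by
  intro φ hφ t η hη
  refine le_trans ?_ (mean_Y hφ η hη)
  rw [← (colY hφ).2]
  exact integral_mono_of_nonneg (Eventually.of_forall fun x => by positivity) (colY hφ).1
    (Eventually.of_forall fun x => trY hφ x _)

theorem jobWal : JobWal := by
  intro φ hφ t η hη
  have h0 : wal t φ ≤ 2 * ∫ p : ℝ × ℝ, ‖φ p‖ * ‖dX φ p‖ := by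
    rw [← (rowX hφ).2, ← integral_const_mul]
    refine le_trans (integral_mono_of_nonneg (Eventually.of_forall fun y => by positivity)
      ((rowX hφ).1.const_mul 2).integrableOn (Eventually.of_forall fun y => ?_))
      (setIntegral_le_integral ((rowX hφ).1.const_mul 2) (Eventually.of_forall fun y => ?_))
    · have h1 := trX hφ (pos y) y
      have h2 := trX hφ (-pos y) y
      simp only
      linarith
    · exact mul_nonneg zero_le_two (integral_nonneg fun x => by positivity)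
  have h1 := mean_X hφ η hη
  linarith

/-- the difference of two traces on a column -/
lemma diff_d (f : ℝ → ℂ) (f' : ℝ → ℂ) (hf : ContDiff ℝ 1 f)
    (hd : ∀ y, HasDerivAt f (f' y) y) (s t : ℝ) (hst : s ≤ t) :
    |‖f s‖ ^ 2 - ‖f t‖ ^ 2| ≤ ∫ y in Set.Ioc s t, 2 * (‖f y‖ * ‖f' y‖) := by
  have hf'c : Continuous f' := by
    have : f' = deriv f := funext fun y => (hd y).deriv.symm
    rw [this]; exact hf.continuous_deriv le_rfl
  have hgd : ∀ y, HasDerivAt (fun y => ‖f y‖ ^ 2) (2 * ⟪f y, f' y⟫_ℝ) y := fun y => (hd y).norm_sq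
  have hcont : Continuous fun y => 2 * ⟪f y, f' y⟫_ℝ :=
    continuous_const.mul (hf.continuous.inner hf'c)
  have h1 := intervalIntegral.integral_eq_sub_of_hasDerivAt (a := s) (b := t) (fun y _ => hgd y)
    (hcont.intervalIntegrable _ _)
  rw [abs_sub_comm, ← h1, intervalIntegral.integral_of_le hst]
  refine (abs_integral_le_integral_abs).trans ?_
  refine integral_mono (hcont.abs.integrableOn_Ioc) ?_ fun y => ?_
  · exact (continuous_const.mul (hf.continuous.norm.mul hf'c.norm)).integrableOn_Ioc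
  · simp only [abs_mul, abs_two]
    have := abs_real_inner_le_norm (f y) (f' y)
    linarith

/-- integrals over the strip -/
lemma strip (f : ℝ × ℝ → ℝ) (hf : Integrable f) (s t : ℝ) :
    Integrable (fun x : ℝ => ∫ y in Set.Ioc s t, f (x, y)) ∧
    (∫ x : ℝ, ∫ y in Set.Ioc s t, f (x, y)) = ∫ p in Set.univ ×ˢ Set.Ioc s t, f p ∧
    (∫ y in Set.Ioc s t, ∫ x : ℝ, f (x, y)) = ∫ p in Set.univ ×ˢ Set.Ioc s t, f p := by
  have hν : (volume : Measure ℝ).prod (volume.restrict (Set.Ioc s t)) =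
      (volume : Measure (ℝ × ℝ)).restrict (Set.univ ×ˢ Set.Ioc s t) := by
    rw [Measure.volume_eq_prod, ← Measure.prod_restrict, Measure.restrict_univ]
  have h1 : Integrable f ((volume : Measure ℝ).prod (volume.restrict (Set.Ioc s t))) := by
    rw [hν]; exact hf.integrableOn
  refine ⟨h1.integral_prod_left, ?_, ?_⟩
  · rw [← hν, integral_prod _ h1]
  · rw [← hν, integral_prod_symm _ h1]

section core2

variable {φ : ℝ × ℝ → ℂ} (hφ : φ ∈ Core)
include hφ

lemma int_row (c : ℝ) : Integrable (fun x : ℝ => ‖φ (x, c)‖ ^ 2) := by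
  obtain ⟨h1, h2, -⟩ := sliceX hφ c
  have h3 : Continuous (fun x : ℝ => ‖φ (x, c)‖ ^ 2) := h1.continuous.norm.pow 2
  refine h3.integrable_of_hasCompactSupport (HasCompactSupport.intro h2.isCompact fun p hp => ?_)
  rw [image_eq_zero_of_notMem_tsupport hp, norm_zero, zero_pow two_ne_zero]

lemma int_col (c : ℝ) : Integrable (fun y : ℝ => ‖φ (c, y)‖ ^ 2) := by
  obtain ⟨h1, h2, -⟩ := sliceY hφ c
  have h3 : Continuous (fun y : ℝ => ‖φ (c, y)‖ ^ 2) := h1.continuous.norm.pow 2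
  refine h3.integrable_of_hasCompactSupport (HasCompactSupport.intro h2.isCompact fun p hp => ?_)
  rw [image_eq_zero_of_notMem_tsupport hp, norm_zero, zero_pow two_ne_zero]

lemma int_hor (t : ℝ) : Integrable (fun x : ℝ => ‖φ (x, hgt t x)‖ ^ 2) := by
  classical
  have e : (fun x : ℝ => ‖φ (x, hgt t x)‖ ^ 2) =
      Set.piecewise {x | |x| < del} (fun x => ‖φ (x, t)‖ ^ 2)
        (Set.piecewise {x | |x| < rad} (fun x => ‖φ (x, 0)‖ ^ 2) (fun x => ‖φ (x, -ste)‖ ^ 2)) := by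
    funext x
    simp only [hgt, Set.piecewise, Set.mem_ofPred_eq]
    split_ifs <;> rfl
  rw [e]
  have hm : ∀ c : ℝ, MeasurableSet {x : ℝ | |x| < c} := fun c =>
    (isOpen_lt continuous_abs continuous_const).measurableSet
  exact Integrable.piecewise (hm _) (int_row hφ t).integrableOn
    (Integrable.piecewise (hm _) (int_row hφ 0).integrableOn
      (int_row hφ (-ste)).integrableOn).integrableOn

lemma int_wal : Integrable (fun y : ℝ => ‖φ (pos y, y)‖ ^ 2 + ‖φ (-pos y, y)‖ ^ 2) := by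
  classical
  have e : (fun y : ℝ => ‖φ (pos y, y)‖ ^ 2 + ‖φ (-pos y, y)‖ ^ 2) =
      Set.piecewise {y | y < 0} (fun y => ‖φ (rad, y)‖ ^ 2 + ‖φ (-rad, y)‖ ^ 2)
        (fun y => ‖φ (del, y)‖ ^ 2 + ‖φ (-del, y)‖ ^ 2) := by
    funext y
    simp only [pos, Set.piecewise, Set.mem_ofPred_eq]
    split_ifs <;> rfl
  rw [e]
  exact Integrable.piecewise (isOpen_lt continuous_id continuous_const).measurableSet
    ((int_col hφ _).add (int_col hφ _)).integrableOn
    ((int_col hφ _).add (int_col hφ _)).integrableOn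

lemma hor_diff (s t : ℝ) (hst : s ≤ t) : |hor s φ - hor t φ| ≤
    ∫ p in Set.univ ×ˢ Set.Ioc s t, 2 * (‖φ p‖ * ‖dY φ p‖) := by
  obtain ⟨h1, h2, -⟩ := strip _ ((int_pY hφ).const_mul 2) s t
  unfold hor
  rw [← integral_sub (int_hor hφ s) (int_hor hφ t), ← h2]
  refine (abs_integral_le_integral_abs).trans ?_
  refine integral_mono ((int_hor hφ s).sub (int_hor hφ t)).abs h1 fun x => ?_
  simp only
  by_cases hx : |x| < del
  · simp only [hgt, if_pos hx]
    obtain ⟨g1, -, g3⟩ := sliceY hφ x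
    exact diff_d _ _ g1 g3 s t hst
  · simp only [hgt, if_neg hx, sub_self, abs_zero]
    exact integral_nonneg fun y => by positivity

lemma wal_diff (s t : ℝ) (hs : 0 ≤ s) (hst : s ≤ t) : |wal s φ - wal t φ| ≤
    ∫ p in Set.univ ×ˢ Set.Ioc s t, 2 * (‖φ p‖ * ‖dX φ p‖) := by
  obtain ⟨-, -, h3⟩ := strip _ ((int_pX hφ).const_mul 2) s t
  have hst' : -ste ≤ s := by unfold ste; linarith
  have e : wal t φ = wal s φ +
      ∫ y in Set.Ioc s t, (‖φ (pos y, y)‖ ^ 2 + ‖φ (-pos y, y)‖ ^ 2) := by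
    unfold wal
    rw [← integral_Ioc_eq_integral_Ioo, ← integral_Ioc_eq_integral_Ioo,
      ← setIntegral_union (Set.Ioc_disjoint_Ioc_of_le le_rfl) measurableSet_Ioc
        (int_wal hφ).integrableOn (int_wal hφ).integrableOn, Set.Ioc_union_Ioc_eq_Ioc hst' hst]
  have h0 : 0 ≤ ∫ y in Set.Ioc s t, (‖φ (pos y, y)‖ ^ 2 + ‖φ (-pos y, y)‖ ^ 2) :=
    integral_nonneg fun y => by positivity
  have h3' : (∫ y in Set.Ioc s t, 2 * ∫ x : ℝ, ‖φ (x, y)‖ * ‖dX φ (x, y)‖) =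
      ∫ p in Set.univ ×ˢ Set.Ioc s t, 2 * (‖φ p‖ * ‖dX φ p‖) := by
    rw [← h3]
    refine integral_congr_ae (Eventually.of_forall fun y => ?_)
    simp only [integral_const_mul]
  rw [e, abs_sub_comm, add_sub_cancel_left, abs_of_nonneg h0, ← h3']
  refine integral_mono (int_wal hφ).integrableOn ((rowX hφ).1.const_mul 2).integrableOn fun y => ?_
  have h1 := trX hφ (pos y) y
  have h2 := trX hφ (-pos y) y
  simp only
  linarith

lemma strip_sq (s t : ℝ) (hst : s ≤ t) :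
    (∫ p in Set.univ ×ˢ Set.Ioc s t, ‖φ p‖ ^ 2) ≤ (t - s) * ((gY φ + nrm φ) / 2) := by
  obtain ⟨h1, h2, -⟩ := strip _ (int_sq hφ) s t
  rw [← h2]
  have h3 := mean_Y hφ 1 one_pos
  rw [one_mul, div_one] at h3
  refine le_trans ?_ (mul_le_mul_of_nonneg_left h3 (sub_nonneg.2 hst))
  rw [← (colY hφ).2, ← integral_const_mul]
  refine integral_mono h1 ((colY hφ).1.const_mul _) fun x => ?_
  simp only
  calc (∫ y in Set.Ioc s t, ‖φ (x, y)‖ ^ 2)
      ≤ ∫ y in Set.Ioc s t, (∫ y, ‖φ (x, y)‖ * ‖dY φ (x, y)‖) :=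
        integral_mono (int_col hφ x).integrableOn (integrableOn_const (by simp)) fun y => trY hφ x y
    _ = (t - s) * ∫ y, ‖φ (x, y)‖ * ‖dY φ (x, y)‖ := by
        rw [setIntegral_const, Measure.real, Real.volume_Ioc, ENNReal.toReal_ofReal (sub_nonneg.2 hst),
          smul_eq_mul]

lemma cont_aux (s t : ℝ) (hs : 0 ≤ s) (hst : s < t) :
    |hor s φ + wal s φ - (hor t φ + wal t φ)| ≤ 4 * √(t - s) * (nrm φ + gX φ + gY φ) := by
  set r := √(t - s) with hr
  have hr0 : 0 < r := Real.sqrt_pos.2 (sub_pos.2 hst)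
  have hr2 : t - s = r ^ 2 := (Real.sq_sqrt (sub_pos.2 hst).le).symm
  have h1 := hor_diff hφ s t hst.le
  have h2 := wal_diff hφ s t hs hst.le
  have h3 := strip_sq hφ s t hst.le
  set N := ∫ p in Set.univ ×ˢ Set.Ioc s t, ‖φ p‖ ^ 2 with hN
  have hn := nrm_nonneg (φ := φ)
  have hx := gX_nonneg (φ := φ)
  have hy := gY_nonneg (φ := φ)
  have h4 : (∫ p in Set.univ ×ˢ Set.Ioc s t, 2 * (‖φ p‖ * ‖dY φ p‖)) ≤ r * gY φ + N / r := by
    have g1 : (∫ p in Set.univ ×ˢ Set.Ioc s t, 2 * (‖φ p‖ * ‖dY φ p‖)) ≤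
        ∫ p in Set.univ ×ˢ Set.Ioc s t, (r * ‖dY φ p‖ ^ 2 + ‖φ p‖ ^ 2 / r) :=
      integral_mono ((int_pY hφ).const_mul 2).integrableOn
        (((int_Y hφ).const_mul r).add ((int_sq hφ).div_const r)).integrableOn fun p => by
          have := yng ‖φ p‖ ‖dY φ p‖ r hr0
          simp only
          linarith
    have e1 : (∫ p in Set.univ ×ˢ Set.Ioc s t, r * ‖dY φ p‖ ^ 2) =
        r * ∫ p in Set.univ ×ˢ Set.Ioc s t, ‖dY φ p‖ ^ 2 := integral_const_mul _ _
    have e2 : (∫ p in Set.univ ×ˢ Set.Ioc s t, ‖φ p‖ ^ 2 / r) = N / r := integral_div _ _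
    rw [integral_add ((int_Y hφ).const_mul r).integrableOn ((int_sq hφ).div_const r).integrableOn,
      e1, e2] at g1
    have g2 : (∫ p in Set.univ ×ˢ Set.Ioc s t, ‖dY φ p‖ ^ 2) ≤ gY φ :=
      setIntegral_le_integral (int_Y hφ) (Eventually.of_forall fun p => by positivity)
    have g3 := mul_le_mul_of_nonneg_left g2 hr0.le
    linarith
  have h5 : (∫ p in Set.univ ×ˢ Set.Ioc s t, 2 * (‖φ p‖ * ‖dX φ p‖)) ≤ r * gX φ + N / r := by
    have g1 : (∫ p in Set.univ ×ˢ Set.Ioc s t, 2 * (‖φ p‖ * ‖dX φ p‖)) ≤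
        ∫ p in Set.univ ×ˢ Set.Ioc s t, (r * ‖dX φ p‖ ^ 2 + ‖φ p‖ ^ 2 / r) :=
      integral_mono ((int_pX hφ).const_mul 2).integrableOn
        (((int_X hφ).const_mul r).add ((int_sq hφ).div_const r)).integrableOn fun p => by
          have := yng ‖φ p‖ ‖dX φ p‖ r hr0
          simp only
          linarith
    have e1 : (∫ p in Set.univ ×ˢ Set.Ioc s t, r * ‖dX φ p‖ ^ 2) =
        r * ∫ p in Set.univ ×ˢ Set.Ioc s t, ‖dX φ p‖ ^ 2 := integral_const_mul _ _
    have e2 : (∫ p in Set.univ ×ˢ Set.Ioc s t, ‖φ p‖ ^ 2 / r) = N / r := integral_div _ _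
    rw [integral_add ((int_X hφ).const_mul r).integrableOn ((int_sq hφ).div_const r).integrableOn,
      e1, e2] at g1
    have g2 : (∫ p in Set.univ ×ˢ Set.Ioc s t, ‖dX φ p‖ ^ 2) ≤ gX φ :=
      setIntegral_le_integral (int_X hφ) (Eventually.of_forall fun p => by positivity)
    have g3 := mul_le_mul_of_nonneg_left g2 hr0.le
    linarith
  have h6 : N / r ≤ r * ((gY φ + nrm φ) / 2) := by
    rw [div_le_iff₀ hr0]
    calc N ≤ (t - s) * ((gY φ + nrm φ) / 2) := h3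
      _ = r * ((gY φ + nrm φ) / 2) * r := by rw [hr2]; ring
  have h7 : |hor s φ + wal s φ - (hor t φ + wal t φ)| ≤ |hor s φ - hor t φ| + |wal s φ - wal t φ| := by
    have : hor s φ + wal s φ - (hor t φ + wal t φ) = (hor s φ - hor t φ) + (wal s φ - wal t φ) := by
      ring
    rw [this]
    exact abs_add_le _ _
  nlinarith [mul_nonneg hr0.le hn, mul_nonneg hr0.le hx, mul_nonneg hr0.le hy]

end core2

theorem jobCont : JobCont := by
  intro φ hφ s hs t ht
  rcases lt_trichotomy s t with h | h | h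
  · have h1 := cont_aux hφ s t hs.1 h
    rwa [abs_sub_comm s t, abs_of_pos (sub_pos.2 h)]
  · subst h
    simp
  · have h1 := cont_aux hφ t s ht.1 h
    rw [abs_of_pos (sub_pos.2 h), abs_sub_comm]
    exact h1

end Pool.Agent.U913.DE
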